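import Pool.Agent.Lib_helper4.LDK.Defs

/-!
# Compactness of Stieltjes sheets
-/

set_option autoImplicit false

open scoped BigOperators ComplexOrder Kronecker MatrixOrder Topology BoundedContinuousFunction
open MeasureTheory Set Matrix Filter

namespace Pool.Agent.LDK

/-- the bounded kernel `(1 + max b 0 x)⁻¹` -/
noncomputable def lim_ker (x : ℝ) (hx : 0 ≤ x) : ℝ →ᵇ ℝ :=
  BoundedContinuousFunction.ofNormedAddCommGroup (fun b : ℝ => (1 + max b 0 * x)⁻¹)
    (Continuous.inv₀ (by fun_prop) (fun b => by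
      have : 0 ≤ max b 0 * x := mul_nonneg (le_max_right _ _) hx
      positivity)) 1 (fun b => by
      have h0 : 0 ≤ max b 0 * x := mul_nonneg (le_max_right _ _) hx
      rw [Real.norm_eq_abs, abs_of_nonneg (by positivity)]
      exact inv_le_one_of_one_le₀ (by linarith))

theorem lim_ker_int {b0 b1 : ℝ} (hb : 0 < b0) {μ : Measure ℝ} (h : μ (Icc b0 b1)ᶜ = 0) {x : ℝ}
    (hx : 0 ≤ x) : ∫ b, (1 + b * x)⁻¹ ∂μ = ∫ b, lim_ker x hx b ∂μ := by
  refine integral_congr_ae ?_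
  have h1 : ∀ᵐ b ∂μ, b ∈ Icc b0 b1 := by
    rw [ae_iff]
    exact h
  filter_upwards [h1] with b h2
  show _ = (1 + max b 0 * x)⁻¹
  rw [max_eq_left (hb.le.trans h2.1)]

/-- **Compactness of Stieltjes sheets.** -/
theorem std_lim {b0 b1 C : ℝ} (hb : 0 < b0) (ψs : ℕ → ℝ → ℝ) (ψ : ℝ → ℝ)
    (h : ∀ n, ∃ (β al : ℝ) (μ : Measure ℝ), StD b0 b1 C (ψs n) β al μ)
    (hlim : ∀ x, 0 ≤ x → Tendsto (fun n => ψs n x) atTop (𝓝 (ψ x))) :
    ∃ (β al : ℝ) (μ : Measure ℝ), StD b0 b1 C ψ β al μ := by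
  choose β al μ hμ using h
  have hC : 0 ≤ C := (abs_nonneg _).trans (hμ 0).bβ
  have hfin : ∀ n, IsFiniteMeasure (μ n) := fun n =>
    ⟨(hμ n).mass.trans_lt ENNReal.ofReal_lt_top⟩
  set ν : ℕ → FiniteMeasure ℝ := fun n => ⟨μ n, hfin n⟩ with hν
  have hνS : ∀ n, ν n ∈ {m : FiniteMeasure ℝ | m.mass ≤ C.toNNReal ∧ m (Icc b0 b1)ᶜ = 0} := by
    intro n
    refine ⟨?_, ?_⟩
    · have h1 := (hμ n).mass
      show ((μ n) univ).toNNReal ≤ C.toNNReal
      exact ENNReal.toNNReal_mono ENNReal.ofReal_ne_top h1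
    · have h1 := (hμ n).supp
      show ((μ n) (Icc b0 b1)ᶜ).toNNReal = 0
      rw [h1]; rfl
  have hK1 := isCompact_setOfPred_finiteMeasure_le_of_isCompact (E := ℝ) C.toNNReal
    (isCompact_Icc : IsCompact (Icc b0 b1))
  have hK2 : IsCompact (Icc (-C) C) := isCompact_Icc
  have hK3 : IsCompact (Icc 0 C) := isCompact_Icc
  set F : Ultrafilter ℕ := Filter.hyperfilter ℕ with hF
  have hFle : (F : Filter ℕ) ≤ atTop := by
    rw [← Nat.cofinite_eq_atTop]
    exact Filter.hyperfilter_le_cofinite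
  obtain ⟨m, hm, hm1⟩ := hK1.ultrafilter_le_nhds (F.map ν) (by
    rw [Filter.le_principal_iff]
    exact Filter.mem_map.2 (Filter.univ_mem' hνS))
  obtain ⟨β', hβ', hβ1⟩ := hK2.ultrafilter_le_nhds (F.map β) (by
    rw [Filter.le_principal_iff]
    exact Filter.mem_map.2 (Filter.univ_mem' fun n => abs_le.1 (hμ n).bβ))
  obtain ⟨al', hal', hal1⟩ := hK3.ultrafilter_le_nhds (F.map al) (by
    rw [Filter.le_principal_iff]
    exact Filter.mem_map.2 (Filter.univ_mem' fun n => ⟨(hμ n).al0, (hμ n).alC⟩))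
  have t1 : Tendsto ν F (𝓝 m) := hm1
  have t2 : Tendsto β F (𝓝 β') := hβ1
  have t3 : Tendsto al F (𝓝 al') := hal1
  have hs : (m : Measure ℝ) (Icc b0 b1)ᶜ = 0 := by
    have h1 : m (Icc b0 b1)ᶜ = 0 := hm.2
    rw [FiniteMeasure.null_iff_toMeasure_null] at h1
    exact h1
  refine ⟨β', al', (m : Measure ℝ), ?_, hs, abs_le.2 hβ', hal'.1, hal'.2, fun x hx => ?_⟩
  · have h1 : m.mass ≤ C.toNNReal := hm.1
    rw [← FiniteMeasure.ennreal_mass]
    show _ ≤ ((C.toNNReal : NNReal) : ENNReal)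
    exact_mod_cast h1
  · have t4 := (FiniteMeasure.tendsto_iff_forall_integral_tendsto.1 t1) (lim_ker x hx)
    have t5 : Tendsto (fun n => β n + al n * x - ∫ b, lim_ker x hx b ∂(ν n : Measure ℝ)) F
        (𝓝 (β' + al' * x - ∫ b, lim_ker x hx b ∂(m : Measure ℝ))) :=
      (t2.add (t3.mul_const x)).sub t4
    have t6 : (fun n => β n + al n * x - ∫ b, lim_ker x hx b ∂(ν n : Measure ℝ)) =
        fun n => ψs n x := by
      funext n
      rw [(hμ n).eq x hx, lim_ker_int hb (hμ n).supp hx]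
      rfl
    rw [t6] at t5
    rw [lim_ker_int hb hs hx]
    exact tendsto_nhds_unique ((hlim x hx).mono_left hFle) t5

end Pool.Agent.LDK
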