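import Pool.Agent.Lib_helper4.LDK.Defs
import Pool.Agent.Lib_helper66.LDK.Star

/-!
# The reciprocal of a Stieltjes sum
-/

set_option autoImplicit false

open scoped BigOperators ComplexOrder Kronecker MatrixOrder Topology
open MeasureTheory Set Matrix Filter

namespace Pool.Agent.LDK

theorem recip_arrow_add {J : ℕ} (c : ℝ) (d : Fin J → ℝ) (ρ : Fin J → ℂ) (s : ℝ) :
    arrow c d ρ + (s : ℂ) • (1 : Matrix (Unit ⊕ Fin J) (Unit ⊕ Fin J) ℂ) =
      arrow (c + s) (fun j => d j + s) ρ := by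
  ext i j
  rcases i with i | i <;> rcases j with j | j
  · simp [arrow_ll, Matrix.add_apply, Matrix.smul_apply]
  · simp [arrow_lr, Matrix.add_apply, Matrix.smul_apply]
  · simp [arrow_rl, Matrix.add_apply, Matrix.smul_apply]
  · rw [Matrix.add_apply, Matrix.smul_apply, arrow_rr, arrow_rr, Matrix.one_apply]
    by_cases h : i = j
    · subst h
      simp
    · simp [h]

/-- the algebra of the reciprocal -/
theorem recip_alg {K : ℕ} {a u : Fin K → ℝ} {a0 a1 : ℝ} (h0 : 0 < a0)
    (ha : ∀ i, a i ∈ Icc a0 a1) (hu : ∀ i, 0 ≤ u i) (hn : 0 < ∑ i, u i) :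
    ∃ (J : ℕ) (d m : Fin J → ℝ) (c : ℝ), (∀ j, d j ∈ Icc a0 a1) ∧ (∀ j, 0 ≤ m j) ∧
      0 ≤ c ∧ c ≤ a1 ∧ ∀ s, 0 ≤ s →
        (∑ i, u i / (a i + s)) * (c + s - ∑ j, m j / (d j + s)) = ∑ i, u i := by
  set n := ∑ i, u i with hnd
  set v : Fin K → ℂ := fun i => ((Real.sqrt (u i / n) : ℝ) : ℂ) with hv
  have hvv : ∀ i, star (v i) * v i = ((u i / n : ℝ) : ℂ) := by
    intro i
    have h1 : 0 ≤ u i / n := div_nonneg (hu i) hn.le
    rw [hv]
    simp only [Complex.star_def, Complex.conj_ofReal]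
    rw [← Complex.ofReal_mul, Real.mul_self_sqrt h1]
  have hv1 : star v ⬝ᵥ v = 1 := by
    rw [dotProduct]
    have : ∀ i, (star v) i * v i = ((u i / n : ℝ) : ℂ) := fun i => hvv i
    simp only [this]
    rw [← Complex.ofReal_sum, ← Finset.sum_div, ← hnd, div_self hn.ne', Complex.ofReal_one]
  have hapos : ∀ i, 0 < a i := fun i => lt_of_lt_of_le h0 (ha i).1
  have hD : (diagonal fun i => (a i : ℂ)).PosDef :=
    PosDef.diagonal fun i => by exact_mod_cast hapos i
  obtain ⟨J, V, d, ρ, c, hV1, hV2, hV3, hd, hA⟩ := exists_arrow _ hD v hv1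
  -- entries of the diagonal of `Vᴴ D V`
  have hent : ∀ k : Unit ⊕ Fin J, (Vᴴ * (diagonal fun i => (a i : ℂ)) * V) k k =
      ((∑ i, a i * Complex.normSq (V i k) : ℝ) : ℂ) := by
    intro k
    rw [mul_apply, Complex.ofReal_sum]
    refine Finset.sum_congr rfl fun i _ => ?_
    rw [mul_diagonal, conjTranspose_apply, Complex.ofReal_mul, Complex.normSq_eq_conj_mul_self,
      Complex.star_def]
    ring
  have hone : ∀ k : Unit ⊕ Fin J, ∑ i, Complex.normSq (V i k) = 1 := by
    intro k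
    have h1 : (Vᴴ * V) k k = 1 := by rw [hV1, one_apply_eq]
    rw [mul_apply] at h1
    have h2 : ∀ i, Vᴴ k i * V i k = ((Complex.normSq (V i k) : ℝ) : ℂ) := by
      intro i
      rw [conjTranspose_apply, Complex.normSq_eq_conj_mul_self, Complex.star_def]
    simp only [h2] at h1
    rw [← Complex.ofReal_sum] at h1
    exact_mod_cast h1
  have hlow : ∀ k : Unit ⊕ Fin J, a0 ≤ ∑ i, a i * Complex.normSq (V i k) := by
    intro k
    have : ∑ i, a0 * Complex.normSq (V i k) ≤ ∑ i, a i * Complex.normSq (V i k) :=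
      Finset.sum_le_sum fun i _ => mul_le_mul_of_nonneg_right (ha i).1 (Complex.normSq_nonneg _)
    rwa [← Finset.mul_sum, hone, mul_one] at this
  have hupp : ∀ k : Unit ⊕ Fin J, ∑ i, a i * Complex.normSq (V i k) ≤ a1 := by
    intro k
    have : ∑ i, a i * Complex.normSq (V i k) ≤ ∑ i, a1 * Complex.normSq (V i k) :=
      Finset.sum_le_sum fun i _ => mul_le_mul_of_nonneg_right (ha i).2 (Complex.normSq_nonneg _)
    rwa [← Finset.mul_sum, hone, mul_one] at this
  have hdj : ∀ j, d j = ∑ i, a i * Complex.normSq (V i (Sum.inr j)) := by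
    intro j
    have h1 := hent (Sum.inr j)
    rw [hA, arrow_rr, if_pos rfl] at h1
    exact_mod_cast h1
  have hcc : c = ∑ i, a i * Complex.normSq (V i (Sum.inl ())) := by
    have h1 := hent (Sum.inl ())
    rw [hA, arrow_ll] at h1
    exact_mod_cast h1
  refine ⟨J, d, fun j => Complex.normSq (ρ j), c, fun j => ?_, fun j => Complex.normSq_nonneg _,
    ?_, ?_, fun s hs => ?_⟩
  · rw [hdj j]; exact ⟨hlow _, hupp _⟩
  · rw [hcc]; exact h0.le.trans (hlow _)
  · rw [hcc]; exact hupp _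
  · set Ds : Matrix (Fin K) (Fin K) ℂ := (diagonal fun i => (a i : ℂ)) + (s : ℂ) • 1 with hDs
    have hAs : Vᴴ * Ds * V = arrow (c + s) (fun j => d j + s) ρ := by
      rw [hDs, Matrix.mul_add, Matrix.add_mul, hA, ← recip_arrow_add]
      congr 1
      rw [Matrix.mul_smul, Matrix.smul_mul, Matrix.mul_one, hV1]
    have hds : ∀ j, d j + s ≠ 0 := fun j => by have := hd j; positivity
    set q : ℝ := 1 * (c + s - ∑ j, Complex.normSq (ρ j) / (d j + s)) with hq
    set z := zvec 1 (fun j => d j + s) ρ with hz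
    have h1 := arrow_mulVec (c + s) 1 (fun j => d j + s) hds ρ
    rw [← hAs, ← hz, ← hq] at h1
    have h2 : Ds *ᵥ (V *ᵥ z) = fun i => (q : ℂ) * v i := by
      have h3 : V *ᵥ ((Vᴴ * Ds * V) *ᵥ z) = Ds *ᵥ (V *ᵥ z) := by
        rw [mulVec_mulVec, mulVec_mulVec]
        congr 1
        rw [Matrix.mul_assoc, ← Matrix.mul_assoc, hV2, Matrix.one_mul]
      rw [← h3, h1]
      ext i
      rw [mulVec, dotProduct, Fintype.sum_sum_type]
      simp [hV3]
      ring
    have h4 : ∀ i, (V *ᵥ z) i = (q : ℂ) * v i / ((a i + s : ℝ) : ℂ) := by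
      intro i
      have h5 := congrFun h2 i
      rw [hDs, add_mulVec, smul_mulVec, one_mulVec, Pi.add_apply, mulVec_diagonal,
        Pi.smul_apply, smul_eq_mul] at h5
      have h6 : ((a i + s : ℝ) : ℂ) ≠ 0 := by
        have := hapos i
        exact_mod_cast (by positivity : a i + s ≠ 0)
      rw [eq_div_iff h6, ← h5]
      push_cast
      ring
    have h7 : star v ⬝ᵥ (V *ᵥ z) = 1 := by
      have h8 : (Vᴴ *ᵥ (V *ᵥ z)) (Sum.inl ()) = 1 := by
        rw [mulVec_mulVec, hV1, one_mulVec, hz]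
        simp [zvec]
      rw [← h8, mulVec, dotProduct, dotProduct]
      refine Finset.sum_congr rfl fun i _ => ?_
      rw [conjTranspose_apply, hV3, Pi.star_apply]
    have h9 : ((q * ∑ i, (u i / n) / (a i + s) : ℝ) : ℂ) = 1 := by
      rw [← h7, dotProduct, Finset.mul_sum, Complex.ofReal_sum]
      refine Finset.sum_congr rfl fun i _ => ?_
      rw [h4 i, Pi.star_apply]
      have := hvv i
      rw [Complex.ofReal_mul, Complex.ofReal_div, ← this]
      ring
    have h10 : q * ∑ i, (u i / n) / (a i + s) = 1 := by exact_mod_cast h9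
    have h11 : ∑ i, (u i / n) / (a i + s) = (∑ i, u i / (a i + s)) / n := by
      rw [Finset.sum_div]
      refine Finset.sum_congr rfl fun i _ => ?_
      rw [div_right_comm]
    rw [h11, ← mul_div_assoc, div_eq_one_iff_eq hn.ne'] at h10
    rw [hq, one_mul] at h10
    rw [mul_comm]
    exact h10

/-- **The reciprocal of a Stieltjes sum is a Stieltjes sheet.** -/
theorem recip {a0 a1 c : ℝ} (h0 : 0 < a0) (h01 : a0 ≤ a1) (hc : 0 < c) :
    ∃ C : ℝ, ∀ f : ℝ → ℝ, ResFormB a0 a1 f → c ≤ f 0 →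
      ∃ (β al : ℝ) (μ : Measure ℝ), StD a1⁻¹ a0⁻¹ C (fun x => (f x)⁻¹) β al μ := by
  refine ⟨(a1 + 1) / (a0 * c), fun f hf hc0 => ?_⟩
  obtain ⟨K, a, u, ha, hu, hf⟩ := hf
  have ha1 : 0 < a1 := lt_of_lt_of_le h0 h01
  have hapos : ∀ i, 0 < a i := fun i => lt_of_lt_of_le h0 (ha i).1
  set n := ∑ i, u i with hnd
  have f0 := hf 0 le_rfl
  have hn : a0 * c ≤ n := by
    have h1 : a0 * f 0 ≤ n := by
      rw [f0, Finset.mul_sum, hnd]
      refine Finset.sum_le_sum fun i _ => ?_
      rw [add_zero, ← mul_div_assoc, div_le_iff₀ (hapos i), mul_comm]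
      exact mul_le_mul_of_nonneg_left (ha i).1 (hu i)
    exact (mul_le_mul_of_nonneg_left hc0 h0.le).trans h1
  have hac : 0 < a0 * c := mul_pos h0 hc
  have hn0 : 0 < n := lt_of_lt_of_le hac hn
  obtain ⟨J, d, m, b, hd, hm, hb0, hb1, hq⟩ := recip_alg h0 ha hu hn0
  have hdpos : ∀ j, 0 < d j := fun j => lt_of_lt_of_le h0 (hd j).1
  -- the value at `0`
  have hq0 := hq 0 le_rfl
  rw [← f0] at hq0
  have hS : ∑ j, m j / d j ≤ a1 := by
    have h1 : 0 < b + 0 - ∑ j, m j / (d j + 0) := by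
      have : 0 < f 0 * (b + 0 - ∑ j, m j / (d j + 0)) := by rw [hq0]; exact hn0
      exact (mul_pos_iff_of_pos_left (by linarith)).1 this
    simp only [add_zero] at h1
    linarith
  have hS0 : 0 ≤ ∑ j, m j / d j := Finset.sum_nonneg fun j _ => div_nonneg (hm j) (hdpos j).le
  have hle : ∀ x : ℝ, 0 ≤ x → x ≤ a1 + 1 → x / n ≤ (a1 + 1) / (a0 * c) := by
    intro x hx hx1
    exact div_le_div₀ (by linarith) hx1 hac hn
  refine ⟨b / n, 1 / n, ∑ j, ENNReal.ofReal (m j / d j / n) • Measure.dirac (d j)⁻¹,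
    ?_, ?_, ?_, ?_, ?_, ?_⟩
  · -- mass
    rw [Measure.finsetSum_apply]
    simp only [Measure.smul_apply, measure_univ, smul_eq_mul, mul_one]
    rw [← ENNReal.ofReal_sum_of_nonneg fun j _ =>
      div_nonneg (div_nonneg (hm j) (hdpos j).le) hn0.le, ← Finset.sum_div]
    exact ENNReal.ofReal_le_ofReal (hle _ hS0 (by linarith))
  · -- support
    rw [Measure.finsetSum_apply]
    refine Finset.sum_eq_zero fun j _ => ?_
    rw [Measure.smul_apply, Measure.dirac_apply' _ measurableSet_Icc.compl]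
    have : (d j)⁻¹ ∈ Icc a1⁻¹ a0⁻¹ :=
      ⟨inv_anti₀ (hdpos j) (hd j).2, inv_anti₀ h0 (hd j).1⟩
    simp [this]
  · rw [abs_of_nonneg (div_nonneg hb0 hn0.le)]
    exact hle _ hb0 (by linarith)
  · positivity
  · exact hle 1 zero_le_one (by linarith)
  · intro x hx
    have hqx := hq x hx
    rw [← hf x hx] at hqx
    have hfx : f x ≠ 0 := by
      intro h
      rw [h, zero_mul] at hqx
      exact hn0.ne hqx
    have hint : ∫ b, (1 + b * x)⁻¹ ∂(∑ j, ENNReal.ofReal (m j / d j / n) • Measure.dirac (d j)⁻¹) =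
        ∑ j, (m j / d j / n) * (1 + (d j)⁻¹ * x)⁻¹ := by
      rw [integral_finsetSum_measure]
      · refine Finset.sum_congr rfl fun j _ => ?_
        rw [integral_smul_measure, integral_dirac, ENNReal.toReal_ofReal
          (div_nonneg (div_nonneg (hm j) (hdpos j).le) hn0.le), smul_eq_mul]
      · intro j _
        exact (integrable_dirac (by simp)).smul_measure ENNReal.ofReal_ne_top
    rw [hint]
    have h1 : ∀ j, (m j / d j / n) * (1 + (d j)⁻¹ * x)⁻¹ = m j / (d j + x) / n := by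
      intro j
      have h2 := (hdpos j).ne'
      have h3 : d j + x ≠ 0 := by have := hdpos j; positivity
      have h4 : 1 + (d j)⁻¹ * x = (d j + x) / d j := by field_simp
      rw [h4, inv_div]
      field_simp
    simp only [h1]
    rw [← Finset.sum_div]
    have h5 : (f x)⁻¹ = (b + x - ∑ j, m j / (d j + x)) / n := by
      have h6 : n = f x * (b + x - ∑ j, m j / (d j + x)) := hqx.symm
      rw [eq_div_iff hn0.ne', h6]
      field_simp
    rw [h5]
    ring

end Pool.Agent.LDK
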